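import Mathlib

open Polynomial TensorProduct

namespace Pool.Agent.Results.MP_efce82_al.DenseNotEqual

/-! Setting of the problem: `D` is an integrally closed domain, `K = FractionRing D` its fraction
field, `A` a torsion-free `D`-algebra (possibly noncommutative), finitely generated as a
`D`-module, and `B = A ⊗_D K`, written here as `FractionRing D ⊗[D] A` (a `K`-algebra). -/

/-- The `K`-algebra `B = K ⊗_D A`, where `K` is the fraction field of `D`. -/
abbrev BAlg (D A : Type) [CommRing D] [Ring A] [Algebra D A] : Type :=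
  FractionRing D ⊗[D] A

/-- The natural map `a ↦ 1 ⊗ a` from `A` to `B`. -/
def incl (D A : Type) [CommRing D] [Ring A] [Algebra D A] : A →ₐ[D] BAlg D A :=
  Algebra.TensorProduct.includeRight

/-- The copy of `A` inside `B`, that is the set of all `1 ⊗ a` with `a` in `A`. -/
def imageA (D A : Type) [CommRing D] [Ring A] [Algebra D A] : Set (BAlg D A) :=
  Set.range (incl D A)

/-- `A'`, the set of elements of `B` which are integral over `D`. -/
def integralElts (D A : Type) [CommRing D] [Ring A] [Algebra D A] : Set (BAlg D A) :=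
  {b | IsIntegral D b}

/-- For `S, T ⊆ B`, the set of polynomials `f` in `K[X]` such that `f(S) ⊆ T`. -/
def IntK (D A : Type) [CommRing D] [Ring A] [Algebra D A] (S T : Set (BAlg D A)) :
    Set (Polynomial (FractionRing D)) :=
  {f | ∀ b ∈ S, aeval b f ∈ T}

/-- `A` is polynomially dense in `A'`: `Int_K(A, A') = Int_K(A')`, where
`Int_K(A, A') = {f : f(A) ⊆ A'}` and `Int_K(A') = {f : f(A') ⊆ A'}`. -/
def PolynomiallyDense (D A : Type) [CommRing D] [Ring A] [Algebra D A] : Prop :=
  IntK D A (imageA D A) (integralElts D A) = IntK D A (integralElts D A) (integralElts D A)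

/-- For `S ⊆ B`, the set `Ω_S` of all the roots, in an algebraic closure of `K`, of the minimal
polynomials over `K` of the elements of `S`. -/
def Omega (D A : Type) [CommRing D] [IsDomain D] [Ring A] [Algebra D A] (S : Set (BAlg D A)) :
    Set (AlgebraicClosure (FractionRing D)) :=
  {x | ∃ b ∈ S, x ∈ (minpoly (FractionRing D) b).rootSet (AlgebraicClosure (FractionRing D))}

section Abstract

set_option linter.unusedSectionVars false

variable {K B : Type} [Field K] [IsFractionRing ℤ K] [CommRing B] [Nontrivial B]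
  [Algebra K B]

lemma two_ne : (2 : K) ≠ 0 := by
  have h := IsFractionRing.injective ℤ K
  intro h2
  have : algebraMap ℤ K 2 = algebraMap ℤ K 0 := by simpa using h2
  exact absurd (h this) (by norm_num)

lemma int_cast_inj {m n : ℤ} (h : (m : K) = (n : K)) : m = n := by
  have h' := IsFractionRing.injective ℤ K
  apply h'
  simpa using h

lemma int_ne {m : ℤ} (h : m ≠ 0) : (m : K) ≠ 0 := by
  intro h2
  exact h (int_cast_inj (K := K) (by simpa using h2))

lemma isInt_K {x : K} (hx : IsIntegral ℤ x) : ∃ m : ℤ, (m : K) = x := by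
  obtain ⟨y, hy⟩ := (IsIntegrallyClosed.isIntegral_iff (R := ℤ) (K := K)).1 hx
  exact ⟨y, by simpa using hy⟩

lemma isInt_B {x : K} (hx : IsIntegral ℤ (algebraMap K B x)) : ∃ m : ℤ, (m : K) = x := by
  apply isInt_K
  exact (isIntegral_algebraMap_iff (algebraMap K B).injective).1 hx

/-- The element `(1 + s) / 2`. -/
noncomputable def halfElt (K : Type) {B : Type} [Field K] [CommRing B] [Algebra K B] (s : B) : B :=
  algebraMap K B (1 / 2) * (1 + s)

lemma halfElt_eq (s : B) : 2 * halfElt K s = 1 + s := by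
  unfold halfElt
  have h : (2 : B) * algebraMap K B (1 / 2) = 1 := by
    have : (2 : B) = algebraMap K B 2 := (map_ofNat (algebraMap K B) 2).symm
    rw [this, ← map_mul]
    have : (2 : K) * (1 / 2) = 1 := by
      field_simp [two_ne (K := K)]
    rw [this, map_one]
  rw [← mul_assoc, h, one_mul]

lemma cancel_int (K : Type) {B : Type} [Field K] [IsFractionRing ℤ K] [CommRing B] [Algebra K B]
    {m : ℤ} (hm : m ≠ 0) {x y : B} (h : (m : B) * x = (m : B) * y) : x = y := by
  have hm' : (m : K) ≠ 0 := int_ne hm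
  have h1 : algebraMap K B (m : K)⁻¹ * (m : B) = 1 := by
    have : (m : B) = algebraMap K B (m : K) := by simp
    rw [this, ← map_mul, inv_mul_cancel₀ hm', map_one]
  calc x = algebraMap K B (m : K)⁻¹ * (m : B) * x := by rw [h1, one_mul]
    _ = algebraMap K B (m : K)⁻¹ * ((m : B) * x) := by ring
    _ = algebraMap K B (m : K)⁻¹ * ((m : B) * y) := by rw [h]
    _ = algebraMap K B (m : K)⁻¹ * (m : B) * y := by ring
    _ = y := by rw [h1, one_mul]

lemma halfElt_sq {s : B} (hs : s * s = -7) : halfElt K s * halfElt K s - halfElt K s + 2 = 0 := by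
  have h2 := halfElt_eq (K := K) s
  have : ((4 : ℤ) : B) * (halfElt K s * halfElt K s - halfElt K s + 2) = ((4 : ℤ) : B) * 0 := by
    push_cast
    have : (4 : B) * (halfElt K s * halfElt K s - halfElt K s + 2) =
      (2 * halfElt K s) * (2 * halfElt K s) - 2 * (2 * halfElt K s) + 8 := by ring
    rw [this, h2]
    have : (1 + s) * (1 + s) - 2 * (1 + s) + 8 = s * s + 7 := by ring
    rw [this, hs]; ring
  exact cancel_int K (by norm_num) this

lemma int_cast_isIntegral (m : ℤ) : IsIntegral ℤ (m : B) := by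
  have : (m : B) = algebraMap ℤ B m := by simp
  rw [this]; exact isIntegral_algebraMap

/-- Elements of `B` integral over `ℤ`. -/
lemma char_int {s : B} (hs : s * s = -7)
    (hgen : ∀ b : B, ∃ x y : K, b = algebraMap K B x + algebraMap K B y * s)
    (conj : B →ₐ[K] B) (hconj : conj s = -s) {b : B} (hb : IsIntegral ℤ b) :
    ∃ u v : ℤ, b = (u : B) + (v : B) * halfElt K s := by
  obtain ⟨x, y, hxy⟩ := hgen b
  have hb' : IsIntegral ℤ (conj b) := hb.map (conj.restrictScalars ℤ)
  have hc : conj b = algebraMap K B x - algebraMap K B y * s := by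
    rw [hxy, map_add, map_mul, AlgHom.commutes, AlgHom.commutes, hconj]; ring
  have hsum : IsIntegral ℤ (algebraMap K B (2 * x)) := by
    have := hb.add hb'
    rw [hc, hxy] at this
    have h2 : algebraMap K B (2 * x) = algebraMap K B x + algebraMap K B y * s +
      (algebraMap K B x - algebraMap K B y * s) := by
      simp only [map_mul, map_ofNat]; ring
    rw [h2]; exact this
  have hprod : IsIntegral ℤ (algebraMap K B (x ^ 2 + 7 * y ^ 2)) := by
    have := hb.mul hb'
    rw [hc, hxy] at this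
    have h2 : algebraMap K B (x ^ 2 + 7 * y ^ 2) = (algebraMap K B x + algebraMap K B y * s) *
      (algebraMap K B x - algebraMap K B y * s) := by
      have : (algebraMap K B x + algebraMap K B y * s) *
      (algebraMap K B x - algebraMap K B y * s) = (algebraMap K B x) ^ 2 -
        (algebraMap K B y) ^ 2 * (s * s) := by ring
      rw [this, hs]
      simp only [map_add, map_mul, map_pow, map_ofNat]; ring
    rw [h2]; exact this
  obtain ⟨m, hm⟩ := isInt_B hsum
  obtain ⟨t, ht⟩ := isInt_B hprod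
  have h14 : IsIntegral ℤ ((14 * y) ^ 2) := by
    have : (14 * y) ^ 2 = ((7 * (4 * t - m ^ 2) : ℤ) : K) := by
      push_cast
      rw [hm, ht]; ring
    rw [this]
    have : ((7 * (4 * t - m ^ 2) : ℤ) : K) = algebraMap ℤ K (7 * (4 * t - m ^ 2)) := by simp
    rw [this]; exact isIntegral_algebraMap
  obtain ⟨k, hk⟩ := isInt_K (IsIntegral.of_pow (by norm_num) h14)
  have hk2 : k ^ 2 = 7 * (4 * t - m ^ 2) := by
    apply int_cast_inj (K := K)
    push_cast
    rw [hk, hm, ht]; ring
  have h7 : (7 : ℤ) ∣ k := by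
    have : (7 : ℤ) ∣ k ^ 2 := ⟨_, hk2⟩
    exact Int.Prime.dvd_pow' (by norm_num) this
  obtain ⟨n, hn⟩ := h7
  have hn2 : m ^ 2 + 7 * n ^ 2 = 4 * t := by
    rw [hn] at hk2
    nlinarith
  have h2y : (n : K) = 2 * y := by
    have h7 : ((7 : ℤ) : K) ≠ 0 := int_ne (by norm_num)
    have : ((7 : ℤ) : K) * n = ((7 : ℤ) : K) * (2 * y) := by
      have : ((7 * n : ℤ) : K) = 14 * y := by rw [← hn, hk]
      push_cast at this ⊢
      rw [this]; ring
    exact mul_left_cancel₀ h7 this
  have hpar : ∃ u : ℤ, m - n = 2 * u := by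
    have : (m - n) % 2 = 0 := by
      have h1 : m % 2 = 0 ∨ m % 2 = 1 := Int.emod_two_eq_zero_or_one m
      have h2 : n % 2 = 0 ∨ n % 2 = 1 := Int.emod_two_eq_zero_or_one n
      have h3 : (m ^ 2 + 7 * n ^ 2) % 2 = 0 := by rw [hn2]; omega
      rcases h1 with h1 | h1 <;> rcases h2 with h2 | h2
      · omega
      · exfalso
        have : (m ^ 2 + 7 * n ^ 2) % 2 = 1 := by
          simp [pow_two, Int.add_emod, Int.mul_emod, h1, h2]
        omega
      · exfalso
        have : (m ^ 2 + 7 * n ^ 2) % 2 = 1 := by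
          simp [pow_two, Int.add_emod, Int.mul_emod, h1, h2]
        omega
      · omega
    exact ⟨(m - n) / 2, by omega⟩
  obtain ⟨u, hu⟩ := hpar
  refine ⟨u, n, ?_⟩
  have : ((2 : ℤ) : B) * b = ((2 : ℤ) : B) * ((u : B) + (n : B) * halfElt K s) := by
    have h1 : ((2 : ℤ) : B) * ((u : B) + (n : B) * halfElt K s) =
      ((2 * u : ℤ) : B) + (n : B) * (2 * halfElt K s) := by push_cast; ring
    rw [h1, halfElt_eq, ← hu, hxy]
    have hm' : (m : B) = algebraMap K B (2 * x) := by rw [← hm]; simp
    have hn' : (n : B) = algebraMap K B (2 * y) := by rw [← h2y]; simp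
    push_cast
    rw [hm', hn']
    simp only [map_mul, map_ofNat]; ring
  exact cancel_int K (by norm_num) this

lemma hensel (j : ℕ) : ∃ r c : ℤ, r ^ 2 - r + 2 = 2 ^ (j + 1) * c := by
  induction j with
  | zero => exact ⟨0, 1, by norm_num⟩
  | succ j ih =>
    obtain ⟨r, c, h⟩ := ih
    refine ⟨r + 2 ^ (j + 1) * c, r * c + 2 ^ j * c ^ 2, ?_⟩
    have : (r + 2 ^ (j + 1) * c) ^ 2 - (r + 2 ^ (j + 1) * c) + 2 =
      (r ^ 2 - r + 2) + 2 ^ (j + 1) * c * (2 * r - 1) + 2 ^ (j + 1) * 2 ^ (j + 1) * c ^ 2 := by ring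
    rw [this, h]
    ring

lemma quad_integral {z a e : B} (ha : IsIntegral ℤ a) (he : IsIntegral ℤ e)
    (h : z * z = a * z + e) : IsIntegral ℤ z := by
  let O := integralClosure ℤ B
  have hz : IsIntegral O z := by
    refine ⟨X ^ 2 - C (⟨a, ha⟩ : O) * X - C (⟨e, he⟩ : O), ?_, ?_⟩
    · monicity!
    · simp only [eval₂_sub, eval₂_mul, eval₂_pow, eval₂_X, eval₂_C]
      change z ^ 2 - a * z - e = 0
      rw [pow_two, h]; ring
  exact isIntegral_trans z hz

lemma sub_factor (P : ℤ[X]) {b c : B} (hb : IsIntegral ℤ b) (hc : IsIntegral ℤ c) :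
    ∃ g : B, IsIntegral ℤ g ∧ aeval b P - aeval c P = (b - c) * g := by
  let O := integralClosure ℤ B
  let b' : O := ⟨b, hb⟩
  let c' : O := ⟨c, hc⟩
  obtain ⟨g, hg⟩ := sub_dvd_eval_sub b' c' (P.map (algebraMap ℤ O))
  refine ⟨g, g.2, ?_⟩
  have := congrArg (fun x : O => (x : B)) hg
  have e1 : ∀ x : O, ((eval x (P.map (algebraMap ℤ O)) : O) : B) = aeval (x : B) P := by
    intro x
    rw [eval_map, ← aeval_def]
    have := aeval_algHom_apply (O.val) x P
    exact this.symm
  rw [← e1 b', ← e1 c']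
  exact this

theorem dense_aux {s : B} (hs : s * s = -7)
    (hgen : ∀ b : B, ∃ x y : K, b = algebraMap K B x + algebraMap K B y * s)
    (conj : B →ₐ[K] B) (hconj : conj s = -s)
    (f : K[X]) (hf : ∀ m n : ℤ, IsIntegral ℤ (aeval ((m : B) + (n : B) * s) f))
    (b : B) (hb : IsIntegral ℤ b) : IsIntegral ℤ (aeval b f) := by
  obtain ⟨u, v, huv⟩ := char_int hs hgen conj hconj hb
  set w := halfElt K s with hw
  have hw2 : w * w - w + 2 = 0 := halfElt_sq hs
  have h2w : 2 * w = 1 + s := halfElt_eq s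
  -- clear denominators
  obtain ⟨d0, hd0, hd⟩ := IsLocalization.integerNormalization_spec (nonZeroDivisors ℤ) f
  set P := IsLocalization.integerNormalization (nonZeroDivisors ℤ) f with hP
  have hd00 : d0 ≠ 0 := nonZeroDivisors.ne_zero hd0
  have hPf : ∀ x : B, aeval x P = (d0 : B) * aeval x f := by
    intro x
    have h1 : aeval x (P.map (algebraMap ℤ K)) = aeval x P := by
      rw [aeval_map_algebraMap]
    rw [← h1, hd]
    simp
  obtain ⟨k, N, hN, hkN⟩ : ∃ (k : ℕ) (N : ℤ), Odd N ∧ d0 = 2 ^ k * N := by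
    obtain ⟨k, N, hN, h⟩ := Nat.exists_eq_two_pow_mul_odd (n := d0.natAbs) (by simpa using hd00)
    rcases Int.natAbs_eq d0 with h' | h'
    · exact ⟨k, N, by exact_mod_cast hN, by rw [h', h]; push_cast; ring⟩
    · exact ⟨k, -N, by simpa using hN, by rw [h', h]; push_cast; ring⟩
  have hN0 : N ≠ 0 := by rintro rfl; simp at hkN; exact hd00 hkN
  set c := aeval b f with hc
  -- first: 2^k * c is integral
  have key1 : IsIntegral ℤ ((2 ^ k : ℤ) * c : B) := by
    obtain ⟨q, hq⟩ : ∃ q : ℤ, 1 + N = 2 * q := by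
      obtain ⟨q, hq⟩ := hN
      exact ⟨q + 1, by rw [hq]; ring⟩
    set α : B := ((1 + N : ℤ) : B) * b with hα
    have hαint : IsIntegral ℤ α := (int_cast_isIntegral _).mul hb
    have hαA : α = ((q * (2 * u + v) : ℤ) : B) + ((q * v : ℤ) : B) * s := by
      rw [hα, hq, huv]
      have : ((2 * q : ℤ) : B) * ((u : B) + (v : B) * w) =
        (q : B) * (2 * u + v * (2 * w)) := by push_cast; ring
      rw [this, h2w]; push_cast; ring
    have hfα : IsIntegral ℤ (aeval α f) := by rw [hαA]; exact hf _ _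
    obtain ⟨g, hg, hg2⟩ := sub_factor P hb hαint
    rw [hPf, hPf, ← hc] at hg2
    have hba : b - α = -((N : B) * b) := by rw [hα]; push_cast; ring
    rw [hba, hkN] at hg2
    have h3 : ((N : ℤ) : B) * ((2 ^ k : ℤ) * c) = ((N : ℤ) : B) *
        ((2 ^ k : ℤ) * aeval α f - b * g) := by
      push_cast at hg2 ⊢
      linear_combination hg2
    have h4 := cancel_int K hN0 h3
    rw [h4]
    exact ((int_cast_isIntegral _).mul hfα).sub (hb.mul hg)
  -- second: N * c is integral
  have key2 : IsIntegral ℤ ((N : B) * c) := by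
    obtain ⟨r, e, hr⟩ := hensel (2 * k)
    set m1 : ℤ := u + v * r with hm1
    set m2 : ℤ := u + v * (1 - r) with hm2
    have hf1 : IsIntegral ℤ (aeval (m1 : B) f) := by simpa using hf m1 0
    have hf2 : IsIntegral ℤ (aeval (m2 : B) f) := by simpa using hf m2 0
    obtain ⟨g1, hg1, hg1'⟩ := sub_factor P hb (int_cast_isIntegral (B := B) m1)
    obtain ⟨g2, hg2, hg2'⟩ := sub_factor P hb (int_cast_isIntegral (B := B) m2)
    rw [hPf, hPf, ← hc] at hg1' hg2'
    have hprod : (b - m1) * (b - m2) = -((v : B) ^ 2 * ((2 : B) ^ (2 * k + 1) * e)) := by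
      have h1 : (b - m1) * (b - m2) = (v : B) ^ 2 * (w * w - w + 2) -
        (v : B) ^ 2 * (r ^ 2 - r + 2) := by
        rw [huv, hm1, hm2]; push_cast; ring
      have h2 : ((r : B) ^ 2 - r + 2) = 2 ^ (2 * k + 1) * e := by
        have := congrArg (fun x : ℤ => (x : B)) hr
        push_cast at this
        exact this
      rw [h1, hw2, h2]; ring
    have h5 : ((2 ^ (2 * k) : ℤ) : B) * ((N : B) ^ 2 * ((c - aeval (m1 : B) f) *
        (c - aeval (m2 : B) f))) =
        ((2 ^ (2 * k) : ℤ) : B) * (-((v : B) ^ 2 * (2 * e) * g1 * g2)) := by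
      have : ((d0 : B) * c - d0 * aeval (m1 : B) f) * ((d0 : B) * c - d0 * aeval (m2 : B) f) =
        ((b - m1) * (b - m2)) * (g1 * g2) := by
        rw [hg1', hg2']; ring
      rw [hprod, hkN] at this
      push_cast at this ⊢
      have e1 : (2 : B) ^ (2 * k) = 2 ^ k * 2 ^ k := by ring
      have e2 : (2 : B) ^ (2 * k + 1) = 2 ^ k * 2 ^ k * 2 := by ring
      rw [e2] at this
      rw [e1]
      linear_combination this
    have h6 := cancel_int K (by positivity) h5
    have hint : IsIntegral ℤ (-((v : B) ^ 2 * (2 * e) * g1 * g2)) := by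
      refine IsIntegral.neg ?_
      refine IsIntegral.mul (IsIntegral.mul (IsIntegral.mul ?_ ?_) hg1) hg2
      · exact (int_cast_isIntegral v).pow 2
      · have : (2 * (e : B)) = ((2 * e : ℤ) : B) := by push_cast; ring
        rw [this]; exact int_cast_isIntegral _
    refine quad_integral (a := (N : B) * (aeval (m1 : B) f + aeval (m2 : B) f))
      (e := -((v : B) ^ 2 * (2 * e) * g1 * g2) -
        (N : B) ^ 2 * (aeval (m1 : B) f * aeval (m2 : B) f)) ?_ ?_ ?_
    · exact (int_cast_isIntegral _).mul (hf1.add hf2)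
    · exact hint.sub (((int_cast_isIntegral _).pow 2).mul (hf1.mul hf2))
    · rw [← h6]; ring
  -- combine
  have hcop : IsCoprime ((2 : ℤ) ^ k) N := by
    apply IsCoprime.pow_left
    exact (Int.isCoprime_iff_gcd_eq_one.2 (by
      have := hN
      rw [Int.gcd_eq_natAbs]
      have h2 : Odd N.natAbs := Int.natAbs_odd.2 hN
      exact (Nat.coprime_two_left.2 h2)))
  obtain ⟨x, y, hxy⟩ := hcop
  have : c = (x : B) * (((2 ^ k : ℤ) : B) * c) + (y : B) * ((N : B) * c) := by
    have h1 : (x : B) * (((2 ^ k : ℤ) : B) * c) + (y : B) * ((N : B) * c) =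
      ((x * 2 ^ k + y * N : ℤ) : B) * c := by push_cast; ring
    rw [h1, hxy]; simp
  rw [this]
  exact ((int_cast_isIntegral _).mul key1).add ((int_cast_isIntegral _).mul key2)

lemma halfElt_int {s : B} (hs : s * s = -7) : IsIntegral ℤ (halfElt K s) := by
  refine quad_integral (a := 1) (e := ((-2 : ℤ) : B)) isIntegral_one ?_ ?_
  · exact int_cast_isIntegral _
  · have := halfElt_sq (K := K) hs
    push_cast
    linear_combination this

lemma not_root (q : K) : q ^ 2 - q + 2 ≠ 0 := by
  intro h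
  have hq : IsIntegral ℤ q := by
    refine quad_integral (a := 1) (e := ((-2 : ℤ) : K)) isIntegral_one ?_ ?_
    · exact int_cast_isIntegral _
    · push_cast; linear_combination h
  obtain ⟨m, hm⟩ := isInt_K hq
  have : m ^ 2 - m + 2 = 0 := by
    apply int_cast_inj (K := K)
    push_cast
    rw [hm]; exact h
  nlinarith [sq_nonneg (2 * m - 1)]

lemma omega_aux {s : B} (hs : s * s = -7) [Module.Finite K B] :
    ∃ x ∈ (minpoly K (halfElt K s)).rootSet (AlgebraicClosure K),
      ∀ m n : ℤ, x ∉ (minpoly K ((m : B) + (n : B) * s)).rootSet (AlgebraicClosure K) := by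
  have hw := halfElt_sq (K := K) hs
  set w := halfElt K s with hwdef
  have hwint : IsIntegral K w := IsIntegral.of_finite K w
  obtain ⟨x, hx⟩ := IsAlgClosed.exists_aeval_eq_zero (AlgebraicClosure K) (minpoly K w)
    (minpoly.degree_pos hwint).ne'
  have hx2 : x ^ 2 - x + 2 = 0 := by
    have hd : minpoly K w ∣ (X ^ 2 - X + 2 : K[X]) := by
      apply minpoly.dvd
      simp only [map_add, map_sub, map_pow, aeval_X, map_ofNat]
      linear_combination hw
    obtain ⟨q, hq⟩ := hd
    have := congrArg (aeval x) hq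
    rw [map_mul, hx, zero_mul] at this
    simpa only [map_add, map_sub, map_pow, aeval_X, map_ofNat] using this
  refine ⟨x, ?_, ?_⟩
  · rw [mem_rootSet]
    exact ⟨minpoly.ne_zero hwint, hx⟩
  · intro m n hb
    rw [mem_rootSet] at hb
    obtain ⟨-, hb⟩ := hb
    have hx3 : x ^ 2 - 2 * m * x + (m ^ 2 + 7 * n ^ 2) = 0 := by
      have hd : minpoly K ((m : B) + (n : B) * s) ∣
          (X ^ 2 - 2 * (m : K[X]) * X + ((m : K[X]) ^ 2 + 7 * (n : K[X]) ^ 2) : K[X]) := by
        apply minpoly.dvd
        simp only [map_add, map_sub, map_mul, map_pow, aeval_X, map_ofNat, map_intCast]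
        linear_combination (n : B) ^ 2 * hs
      obtain ⟨q, hq⟩ := hd
      have := congrArg (aeval x) hq
      rw [map_mul, hb, zero_mul] at this
      simpa only [map_add, map_sub, map_mul, map_pow, aeval_X, map_ofNat, map_intCast] using this
    have hk : ((1 - 2 * m : ℤ) : K) ≠ 0 := int_ne (by omega)
    have hk' : ((1 - 2 * m : ℤ) : AlgebraicClosure K) ≠ 0 := by
      have : ((1 - 2 * m : ℤ) : AlgebraicClosure K) = algebraMap K (AlgebraicClosure K)
        ((1 - 2 * m : ℤ) : K) := by rw [map_intCast]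
      rw [this]
      intro h0
      apply hk
      apply (algebraMap K (AlgebraicClosure K)).injective
      rw [h0, map_zero]
    have hxq : x = algebraMap K (AlgebraicClosure K)
        ((2 - (m : K) ^ 2 - 7 * (n : K) ^ 2) / ((1 - 2 * m : ℤ) : K)) := by
      rw [map_div₀]
      simp only [map_sub, map_mul, map_pow, map_ofNat, map_intCast]
      rw [eq_div_iff hk']
      push_cast
      linear_combination hx3 - hx2
    set q := ((2 - (m : K) ^ 2 - 7 * (n : K) ^ 2) / ((1 - 2 * m : ℤ) : K)) with hq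
    apply not_root q
    apply (algebraMap K (AlgebraicClosure K)).injective
    simp only [map_add, map_sub, map_pow, map_ofNat, map_zero]
    rw [← hxq]
    exact hx2

end Abstract

/-! ### General facts on `B` -/

section General

variable (D A : Type) [CommRing D] [Ring A] [Algebra D A]

lemma tmul_eq (k : FractionRing D) (a : A) :
    (k ⊗ₜ[D] a : BAlg D A) = algebraMap (FractionRing D) (BAlg D A) k * incl D A a := by
  rw [Algebra.TensorProduct.algebraMap_apply]
  unfold incl
  rw [Algebra.TensorProduct.includeRight_apply, Algebra.TensorProduct.tmul_mul_tmul]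
  simp

lemma BAlg_induction {motive : BAlg D A → Prop} (b : BAlg D A) (h0 : motive 0)
    (h1 : ∀ (k : FractionRing D) (a : A),
      motive (algebraMap (FractionRing D) (BAlg D A) k * incl D A a))
    (h2 : ∀ x y, motive x → motive y → motive (x + y)) : motive b := by
  induction b using TensorProduct.induction_on with
  | zero => exact h0
  | tmul k a => rw [tmul_eq]; exact h1 k a
  | add x y hx hy => exact h2 x y hx hy

lemma nontrivial_BAlg [IsDomain D] [Nontrivial A] [Module.Flat D A] : Nontrivial (BAlg D A) := by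
  apply TensorProduct.nontrivial_of_linearMap_injective_of_flat_right D (FractionRing D) A
    (Algebra.linearMap D (FractionRing D))
  exact IsFractionRing.injective D (FractionRing D)

/-- Base change of an endomorphism of `A`. -/
def bmap (g : A →ₐ[D] A) : BAlg D A →ₐ[FractionRing D] BAlg D A :=
  Algebra.TensorProduct.map (AlgHom.id (FractionRing D) (FractionRing D)) g

lemma bmap_incl (g : A →ₐ[D] A) (a : A) : bmap D A g (incl D A a) = incl D A (g a) := by
  unfold bmap incl
  simp

end General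

/-! ### The example: `D = ℤ`, `A = ℤ[√-7]` -/

/-- The ring `ℤ[√-7]`. -/
abbrev A7 : Type := QuadraticAlgebra ℤ (-7) 0

abbrev K0 : Type := FractionRing ℤ

abbrev B7 : Type := BAlg ℤ A7

/-- `√-7` in `A7`. -/
def om : A7 := ⟨0, 1⟩

lemma om_mul : om * om = ((-7 : ℤ) : A7) := by
  apply QuadraticAlgebra.ext
  · rw [QuadraticAlgebra.re_intCast]; simp [om]
  · rw [QuadraticAlgebra.im_intCast]; simp [om]

instance : IsDomain A7 := by
  have h : NoZeroDivisors A7 := by
    refine ⟨fun {a b} hab => ?_⟩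
    have hn : QuadraticAlgebra.norm a * QuadraticAlgebra.norm b = 0 := by
      rw [← map_mul, hab, QuadraticAlgebra.norm_zero]
    have key : ∀ z : A7, QuadraticAlgebra.norm z = 0 → z = 0 := by
      intro z hz
      rw [QuadraticAlgebra.norm_def] at hz
      have h1 : z.im = 0 := by nlinarith [sq_nonneg z.re, sq_nonneg z.im]
      have h2 : z.re = 0 := by rw [h1] at hz; nlinarith [sq_nonneg z.re]
      exact QuadraticAlgebra.ext h2 h1
    rcases mul_eq_zero.1 hn with h | h
    · exact Or.inl (key a h)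
    · exact Or.inr (key b h)
  exact NoZeroDivisors.to_isDomain A7

/-- `√-7` in `B7`. -/
noncomputable def s7 : B7 := incl ℤ A7 om

lemma s7_mul : s7 * s7 = -7 := by
  unfold s7
  rw [← map_mul, om_mul, map_intCast]
  norm_num

lemma incl_eq (a : A7) : incl ℤ A7 a = (a.re : B7) + (a.im : B7) * s7 := by
  have : a = (a.re : A7) + (a.im : A7) * om := by
    ext <;> simp [om]
  conv_lhs => rw [this]
  rw [map_add, map_mul, map_intCast, map_intCast]
  rfl

lemma gen7 (b : B7) : ∃ x y : K0, b = algebraMap K0 B7 x + algebraMap K0 B7 y * s7 := by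
  induction b using BAlg_induction with
  | h0 => exact ⟨0, 0, by simp⟩
  | h1 k a =>
    refine ⟨k * a.re, k * a.im, ?_⟩
    rw [incl_eq]
    simp only [map_mul, map_intCast]
    ring
  | h2 x y hx hy =>
    obtain ⟨x1, x2, hx⟩ := hx
    obtain ⟨y1, y2, hy⟩ := hy
    refine ⟨x1 + y1, x2 + y2, ?_⟩
    rw [hx, hy]
    simp only [map_add]; ring

instance : Nontrivial B7 := nontrivial_BAlg ℤ A7

lemma conjA_aux : ∃ g : A7 →ₐ[ℤ] A7, g om = -om := by
  have h : (-om) * (-om) = (-7 : ℤ) • (1 : A7) + (0 : ℤ) • (-om) := by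
    have : (-om) * (-om) = om * om := by ring
    rw [this, om_mul]; simp
  refine ⟨QuadraticAlgebra.lift ⟨-om, h⟩, ?_⟩
  simp [QuadraticAlgebra.lift, om]

lemma conj_aux : ∃ g : B7 →ₐ[K0] B7, g s7 = -s7 := by
  obtain ⟨g, hg⟩ := conjA_aux
  refine ⟨bmap ℤ A7 g, ?_⟩
  unfold s7
  rw [bmap_incl, hg, map_neg]

lemma fr : @IsFractionRing ℤ _ K0 _ (Ring.toIntAlgebra K0) := by
  have h2 : ∀ i : Algebra ℤ K0, @IsFractionRing ℤ _ K0 _ i →
      @IsFractionRing ℤ _ K0 _ (Ring.toIntAlgebra K0) := by
    intro i hi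
    have : i = Ring.toIntAlgebra K0 := Subsingleton.elim _ _
    rw [this] at hi
    exact hi
  exact h2 _ inferInstance

lemma intg (b : B7) :
    b ∈ integralElts ℤ A7 ↔ @IsIntegral ℤ B7 _ _ (Ring.toIntAlgebra B7) b := by
  have : ∀ i : Algebra ℤ B7,
      @IsIntegral ℤ B7 _ _ i b ↔ @IsIntegral ℤ B7 _ _ (Ring.toIntAlgebra B7) b := by
    intro i
    have : i = (Ring.toIntAlgebra B7) := Subsingleton.elim _ _
    rw [this]
  exact this _

lemma imageA_sub : imageA ℤ A7 ⊆ integralElts ℤ A7 := by
  rintro _ ⟨a, rfl⟩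
  exact (Algebra.IsIntegral.isIntegral (R := ℤ) a).map (incl ℤ A7)

lemma dense7 : PolynomiallyDense ℤ A7 := by
  obtain ⟨conj, hconj⟩ := conj_aux
  have := fr
  apply Set.Subset.antisymm
  · intro f hf b hb
    rw [intg] at hb ⊢
    refine dense_aux s7_mul gen7 conj hconj f ?_ b hb
    intro m n
    rw [← intg]
    refine hf _ ⟨⟨m, n⟩, ?_⟩
    rw [incl_eq]
  · intro f hf b hb
    exact hf b (imageA_sub hb)

lemma halfElt_mem : halfElt K0 s7 ∈ integralElts ℤ A7 := by
  have := fr
  rw [intg]
  exact halfElt_int s7_mul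

lemma omega7 : ∃ x ∈ Omega ℤ A7 (integralElts ℤ A7), x ∉ Omega ℤ A7 (imageA ℤ A7) := by
  have := fr
  obtain ⟨x, hx1, hx2⟩ := omega_aux (K := K0) s7_mul
  refine ⟨x, ⟨_, halfElt_mem, hx1⟩, ?_⟩
  rintro ⟨b, ⟨a, rfl⟩, hb⟩
  rw [incl_eq] at hb
  exact hx2 _ _ hb

/-- Q1 is false: with `D = ℤ` there is a commutative domain `A`, finitely generated and
torsion-free as a `ℤ`-module, which is polynomially dense in `A'` while `Ω_{A'}` contains an
element which is not in `Ω_A`. -/
theorem result :
    ∃ (A : Type) (_ : CommRing A), IsDomain A ∧ Module.Finite ℤ A ∧ Module.IsTorsionFree ℤ A ∧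
      PolynomiallyDense ℤ A ∧
      ∃ x ∈ Omega ℤ A (integralElts ℤ A), x ∉ Omega ℤ A (imageA ℤ A) := by
  refine ⟨A7, inferInstance, inferInstance, inferInstance, inferInstance, ?_, ?_⟩
  · exact dense7
  · exact omega7

end Pool.Agent.Results.MP_efce82_al.DenseNotEqual
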